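import Pool.Agent.H366Z.Gro.Kernel

/-! Kernels with a large oscillation against a non-convergent sequence. -/

set_option autoImplicit false

namespace Pool.Agent.H366Z.Gro

abbrev Om (n : ℕ) := Fin n → Z2

def rep {n : ℕ} (k : ℕ) (ω : Om n) : Om n := fun i => if (i : ℕ) < k then ω i else 0

noncomputable def ind {n : ℕ} (k : ℕ) (ω ω' : Om n) : ℝ := if rep k ω = rep k ω' then 1 else 0

lemma rep_mono {n k k' : ℕ} (h : k ≤ k') {ω ω' : Om n} (e : rep k' ω = rep k' ω') :
    rep k ω = rep k ω' := by
  funext i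
  have := congrFun e i
  unfold rep at this ⊢
  split_ifs with hi
  · rwa [if_pos (lt_of_lt_of_le hi h), if_pos (lt_of_lt_of_le hi h)] at this
  · rfl

noncomputable abbrev lc (f : ℕ → ℝ) : (ℕ →₀ ℝ) →ₗ[ℝ] ℝ := Finsupp.linearCombination ℝ f

lemma lc_congr {f g : ℕ → ℝ} {c : ℕ →₀ ℝ} (h : ∀ k ∈ c.support, f k = g k) : lc f c = lc g c := by
  rw [Finsupp.linearCombination_apply, Finsupp.linearCombination_apply]
  exact Finsupp.sum_congr fun k hk => by rw [h k hk]

lemma lc_zero (c : ℕ →₀ ℝ) : lc (fun _ => 0) c = 0 := by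
  simp [Finsupp.linearCombination_apply]

lemma exists_kernel (a : ℕ → ℝ) (lam mu : ℝ) (hlo : ∀ m, ∃ k, m ≤ k ∧ a k ≤ lam)
    (hhi : ∀ m, ∃ k, m ≤ k ∧ mu ≤ a k) :
    ∀ d lo : ℕ, ∃ (c : ℕ →₀ ℝ) (hi : ℕ), (∀ k ∈ c.support, lo ≤ k ∧ k ≤ hi) ∧
      lc (fun _ => 1) c = (588 / 625) ^ d ∧
      (mu - lam) * (588 / 625 + 7 / 100) ^ d + lam * (588 / 625) ^ d ≤ lc a c ∧
      ∀ n, Rl d (fun ω ω' : Om n => lc (fun k => ind k ω ω') c) := by
  intro d
  induction d with
  | zero =>
    intro lo
    obtain ⟨k, hk, hak⟩ := hhi lo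
    refine ⟨Finsupp.single k 1, k, ?_, ?_, ?_, ?_⟩
    · intro j hj
      have := Finsupp.support_single_subset hj
      rw [Finset.mem_singleton] at this
      subst this; exact ⟨hk, le_rfl⟩
    · simp
    · simp; linarith
    · intro n
      simp only [Finsupp.linearCombination_single, one_smul]
      exact Rl_base (rep k)
  | succ d ih =>
    intro lo
    obtain ⟨c1, hi1, hs1, ht1, hv1, hr1⟩ := ih lo
    obtain ⟨k, hk, hak⟩ := hlo (max lo hi1)
    obtain ⟨c0, hi0, hs0, ht0, hv0, hr0⟩ := ih k
    have hk1 : lo ≤ k := (le_max_left _ _).trans hk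
    have hk2 : hi1 ≤ k := (le_max_right _ _).trans hk
    refine ⟨(588 / 625 : ℝ) • c0 + (7 / 100 : ℝ) • c1 +
      (-(7 / 100 * (588 / 625) ^ d) : ℝ) • Finsupp.single k 1, max hi0 k, ?_, ?_, ?_, ?_⟩
    · intro j hj
      rcases Finset.mem_union.1 (Finsupp.support_add hj) with h | h
      · rcases Finset.mem_union.1 (Finsupp.support_add h) with h | h
        · have := hs0 j (Finsupp.support_smul h)
          exact ⟨hk1.trans this.1, this.2.trans (le_max_left _ _)⟩
        · have := hs1 j (Finsupp.support_smul h)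
          exact ⟨this.1, (this.2.trans hk2).trans (le_max_right _ _)⟩
      · have := Finsupp.support_single_subset (Finsupp.support_smul h)
        rw [Finset.mem_singleton] at this
        subst this; exact ⟨hk1, le_max_right _ _⟩
    · simp only [map_add, map_smul, Finsupp.linearCombination_single, smul_eq_mul, ht0, ht1]
      ring
    · simp only [map_add, map_smul, Finsupp.linearCombination_single, smul_eq_mul]
      have hp : (0 : ℝ) ≤ (588 / 625) ^ d := by positivity
      have h3 := mul_le_mul_of_nonneg_left hak hp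
      rw [pow_succ, pow_succ]
      nlinarith
    · intro n
      have := Rl_step (hr0 n) (hr1 n) (rep k)
      convert this using 3 with ω ω'
      simp only [map_add, map_smul, Finsupp.linearCombination_single, smul_eq_mul]
      by_cases h : rep k ω = rep k ω'
      · have e1 : lc (fun j => ind j ω ω') c1 = (588 / 625) ^ d := by
          rw [← ht1]
          apply lc_congr
          intro j hj
          unfold ind
          rw [if_pos (rep_mono ((hs1 j hj).2.trans hk2) h)]
        have e2 : ind k ω ω' = 1 := by unfold ind; rw [if_pos h]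
        rw [e1, e2, if_pos h]; ring
      · have e0 : lc (fun j => ind j ω ω') c0 = 0 := by
          rw [← lc_zero c0]
          apply lc_congr
          intro j hj
          unfold ind
          rw [if_neg fun h' => h (rep_mono (hs0 j hj).1 h')]
        have e2 : ind k ω ω' = 0 := by unfold ind; rw [if_neg h]
        rw [e0, e2, if_neg h]; ring

lemma Rl_pad_le {Ω : Type} [Fintype Ω] {d n : ℕ} (h : d ≤ n) {K : Ω → Ω → ℝ} (hK : Rl d K) :
    Rl n K := by
  induction n, h using Nat.le_induction with
  | base => exact hK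
  | succ m _ ih => exact Rl_pad ih

end Pool.Agent.H366Z.Gro
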