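import Pool.Agent.H366Z.Gro.Norm

/-! Realisable two-point kernels. -/

set_option autoImplicit false

namespace Pool.Agent.H366Z.Gro

noncomputable def sg (a : Z2) : ℝ := if a = 0 then 1 else -1

lemma sg_zero : sg 0 = 1 := by simp [sg]
lemma sg_one : sg 1 = -1 := by simp [sg]
lemma sg_add_one (a : Z2) : sg (a + 1) = - sg a := by
  rcases z2_cases a with rfl | rfl
  · rw [zero_add, sg_zero, sg_one]
  · rw [z2_11, sg_zero, sg_one]; ring
lemma sg_mul_self (a : Z2) : sg a * sg a = 1 := by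
  rcases z2_cases a with rfl | rfl
  · rw [sg_zero]; ring
  · rw [sg_one]; ring
lemma abs_sg (a : Z2) : |sg a| = 1 := by
  rcases z2_cases a with rfl | rfl
  · rw [sg_zero]; simp
  · rw [sg_one]; simp

lemma sign_orth {R : Type} [Fintype R] [DecidableEq R] (r r' : R) :
    ∑ θ : R → Z2, sg (θ r) * sg (θ r') =
      (Fintype.card (R → Z2) : ℝ) * (if r = r' then 1 else 0) := by
  split_ifs with h
  · subst h
    simp [sg_mul_self]
  · have e := Equiv.sum_comp (Equiv.addRight (Pi.single r (1 : Z2) : R → Z2))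
      (fun θ : R → Z2 => sg (θ r) * sg (θ r'))
    have e2 : ∀ θ : R → Z2, sg ((θ + (Pi.single r (1 : Z2) : R → Z2)) r) *
        sg ((θ + (Pi.single r (1 : Z2) : R → Z2)) r') = - (sg (θ r) * sg (θ r')) := by
      intro θ
      rw [Pi.add_apply, Pi.add_apply, Pi.single_eq_same, Pi.single_eq_of_ne (Ne.symm h), add_zero,
        sg_add_one]
      ring
    simp only [Equiv.coe_addRight, e2, Finset.sum_neg_distrib] at e
    linarith

lemma avg_le {Θ : Type} [Fintype Θ] [Nonempty Θ] (F : Θ → ℝ) (X C : ℝ) (h : ∀ θ, F θ ≤ C)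
    (hX : ∑ θ, F θ = (Fintype.card Θ : ℝ) * X) : X ≤ C := by
  have h1 : ∑ θ, F θ ≤ ∑ _θ : Θ, C := Finset.sum_le_sum fun θ _ => h θ
  rw [hX, Finset.sum_const, Finset.card_univ, nsmul_eq_mul] at h1
  have : (0 : ℝ) < Fintype.card Θ := by exact_mod_cast Fintype.card_pos
  exact le_of_mul_le_mul_left h1 this

lemma sum_I_zero (f : I 0 → ℝ) : ∑ i, f i = f () := by
  have key : ∀ g : Unit → ℝ, ∑ i, g i = g () := fun g => by simp
  exact key f

def mk3 {d : ℕ} (g : Z2 → Z2 → I d → ℝ) : I (d + 1) → ℝ :=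
  fun i => g (show Z2 × Z2 × I d from i).1 (show Z2 × Z2 × I d from i).2.1
    (show Z2 × Z2 × I d from i).2.2

lemma mk3_apply {d : ℕ} (g : Z2 → Z2 → I d → ℝ) (a b : Z2) (j : I d) :
    mk3 g (a, b, j) = g a b j := rfl

variable {Ω : Type} [Fintype Ω] [DecidableEq Ω]

def AdmU (d : ℕ) (u : Ω → I d → ℝ) : Prop := ∀ ω, N d (u ω) ≤ 1
def AdmV (d : ℕ) (v : Ω → I d → ℝ) : Prop := ∀ ω (x : I d → ℝ), ∑ i, v ω i * x i ≤ N d x

def Rl (d : ℕ) (K : Ω → Ω → ℝ) : Prop :=
  ∀ (L : Ω → Ω → ℝ) (C : ℝ),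
    (∀ u v : Ω → I d → ℝ, AdmU d u → AdmV d v →
      ∑ ω, ∑ ω', L ω ω' * ∑ i, v ω i * u ω' i ≤ C) →
    ∑ ω, ∑ ω', L ω ω' * K ω ω' ≤ C

lemma Rl_base (r : Ω → Ω) : Rl 0 (fun ω ω' => if r ω = r ω' then (1 : ℝ) else 0) := by
  intro L C h
  refine avg_le (Θ := Ω → Z2)
    (fun θ => ∑ ω, ∑ ω', L ω ω' * (sg (θ (r ω)) * sg (θ (r ω')))) _ _ (fun θ => ?_) ?_
  · have := h (fun ω _ => sg (θ (r ω))) (fun ω _ => sg (θ (r ω))) (fun ω => (abs_sg _).le)
      (fun ω x => by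
        rw [sum_I_zero]
        refine (le_abs_self _).trans ?_
        rw [abs_mul, abs_sg, one_mul]; exact le_rfl)
    simpa only [sum_I_zero] using this
  · rw [Finset.sum_comm, Finset.mul_sum]
    refine Finset.sum_congr rfl fun ω _ => ?_
    rw [Finset.sum_comm, Finset.mul_sum]
    refine Finset.sum_congr rfl fun ω' _ => ?_
    rw [← Finset.mul_sum, sign_orth]; ring

lemma n2_zero_right {s : ℝ} (hs : 0 ≤ s) : n2 s 0 = s := by
  unfold n2; simp [Real.sqrt_sq hs]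
lemma n4_zero_right {s : ℝ} (hs : 0 ≤ s) : n4 s 0 = s := by
  have h : n4 s 0 ^ 4 = s ^ 4 := by rw [n4_pow]; ring
  exact (pow_left_inj₀ (n4_nonneg _ _) hs (by norm_num)).1 h

omit [DecidableEq Ω] in
lemma Rl_pad {d : ℕ} {K : Ω → Ω → ℝ} (hK : Rl d K) : Rl (d + 1) K := by
  intro L C h
  apply hK L C
  intro u v hu hv
  have := h (fun ω => mk3 fun a b j => if a = 0 ∧ b = 0 then u ω j else 0)
    (fun ω => mk3 fun a b j => if a = 0 ∧ b = 0 then v ω j else 0) ?_ ?_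
  · simpa [sum_I_succ, mk3_apply] using this
  · intro ω
    rw [N_succ]
    simp only [mk3_apply, and_self, if_true, one_ne_zero, and_false, false_and, if_false, N_zero]
    rw [n4_zero_right (N_nonneg _ _), n4_zero_right le_rfl, n2_zero_right (N_nonneg _ _)]
    exact hu ω
  · intro ω x
    rw [sum_I_succ]
    simp only [mk3_apply, and_self, if_true, one_ne_zero, and_false, false_and, if_false, zero_mul,
      Finset.sum_const_zero, add_zero]
    exact (hv ω _).trans (N_block d x 0 0)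

noncomputable def cU {d : ℕ} (χ : Z2) (u0 u1 : I d → ℝ) : I (d + 1) → ℝ :=
  mk3 fun a b j => if a = χ then (if b = 0 then 49 / 50 * u0 j else 1 / 2 * u1 j) else 0

noncomputable def cV {d : ℕ} (χ : Z2) (v0 v1 : I d → ℝ) : I (d + 1) → ℝ :=
  mk3 fun a b j => if a = χ then (if b = 0 then 24 / 25 * v0 j else 0)
    else (if b = 0 then 0 else 7 / 25 * v1 j)

lemma N_cU {d : ℕ} (χ : Z2) (u0 u1 : I d → ℝ) (h0 : N d u0 ≤ 1) (h1 : N d u1 ≤ 1) :
    N (d + 1) (cU χ u0 u1) ≤ 1 := by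
  have key : n4 (N d fun j => 49 / 50 * u0 j) (N d fun j => 1 / 2 * u1 j) ≤ 1 := by
    rw [N_smul, N_smul]
    apply n4_le zero_le_one
    have a0 := N_nonneg d u0
    have a1 := N_nonneg d u1
    rw [abs_of_pos (by norm_num : (0 : ℝ) < 49 / 50), abs_of_pos (by norm_num : (0 : ℝ) < 1 / 2)]
    calc (49 / 50 * N d u0) ^ 4 + (1 / 2 * N d u1) ^ 4 ≤ (49 / 50 * 1) ^ 4 + (1 / 2 * 1) ^ 4 := by
          gcongr
      _ ≤ 1 ^ 4 := by norm_num
  rw [N_succ]
  rcases z2_cases χ with rfl | rfl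
  · simp only [cU, mk3_apply, if_true, one_ne_zero, if_false, N_zero]
    rw [n4_zero_right le_rfl, n2_zero_right (n4_nonneg _ _)]
    exact key
  · simp only [cU, mk3_apply, if_true, one_ne_zero, zero_ne_one, if_false, N_zero]
    rw [n4_zero_right le_rfl, n2_comm, n2_zero_right (n4_nonneg _ _)]
    exact key

lemma cV_le {d : ℕ} (χ : Z2) (v0 v1 : I d → ℝ) (h0 : ∀ x : I d → ℝ, ∑ i, v0 i * x i ≤ N d x)
    (h1 : ∀ x : I d → ℝ, ∑ i, v1 i * x i ≤ N d x) (x : I (d + 1) → ℝ) :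
    ∑ i, cV χ v0 v1 i * x i ≤ N (d + 1) x := by
  have key : ∀ s t S T : ℝ, s ≤ S → t ≤ T → 24 / 25 * s + 7 / 25 * t ≤ n2 S T := by
    intro s t S T hs ht
    have := cs (a := 24 / 25) (b := 7 / 25) (c := S) (e := T) (R := 1) (S := n2 S T) zero_le_one
      (n2_nonneg _ _) (by norm_num) (n2_sq _ _).ge
    linarith
  rw [N_succ, sum_I_succ]
  rcases z2_cases χ with rfl | rfl
  · simp only [cV, mk3_apply, if_true, one_ne_zero, if_false, zero_mul, Finset.sum_const_zero,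
      add_zero, zero_add, mul_assoc, ← Finset.mul_sum]
    exact key _ _ _ _ ((h0 _).trans le_n4_left) ((h1 _).trans le_n4_right)
  · simp only [cV, mk3_apply, if_true, one_ne_zero, zero_ne_one, if_false, zero_mul,
      Finset.sum_const_zero, add_zero, zero_add, mul_assoc, ← Finset.mul_sum]
    rw [add_comm, n2_comm]
    exact key _ _ _ _ ((h0 _).trans le_n4_left) ((h1 _).trans le_n4_right)

lemma cV_cU {d : ℕ} (χ χ' : Z2) (u0 u1 v0 v1 : I d → ℝ) :
    ∑ i, cV χ v0 v1 i * cU χ' u0 u1 i =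
      588 / 625 * ((1 + sg χ * sg χ') / 2) * ∑ j, v0 j * u0 j +
      7 / 50 * ((1 - sg χ * sg χ') / 2) * ∑ j, v1 j * u1 j := by
  rw [sum_I_succ]
  have e0 : ∑ j, 24 / 25 * v0 j * (49 / 50 * u0 j) = 588 / 625 * ∑ j, v0 j * u0 j := by
    rw [Finset.mul_sum]; exact Finset.sum_congr rfl fun j _ => by ring
  have e1 : ∑ j, 7 / 25 * v1 j * (1 / 2 * u1 j) = 7 / 50 * ∑ j, v1 j * u1 j := by
    rw [Finset.mul_sum]; exact Finset.sum_congr rfl fun j _ => by ring
  rcases z2_cases χ with rfl | rfl <;> rcases z2_cases χ' with rfl | rfl <;>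
  simp only [cV, cU, mk3_apply, if_true, one_ne_zero, zero_ne_one, if_false, zero_mul, mul_zero,
      Finset.sum_const_zero, add_zero, zero_add, sg_zero, sg_one, e0, e1] <;> ring

lemma Rl_step {d : ℕ} {K0 K1 : Ω → Ω → ℝ} (h0 : Rl d K0) (h1 : Rl d K1) (r : Ω → Ω) :
    Rl (d + 1) (fun ω ω' => 588 / 625 * ((1 + (if r ω = r ω' then 1 else 0)) / 2) * K0 ω ω' +
      7 / 50 * ((1 - (if r ω = r ω' then 1 else 0)) / 2) * K1 ω ω') := by
  intro L C h
  refine avg_le (Θ := Ω → Z2)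
    (fun θ => ∑ ω, ∑ ω', L ω ω' *
      (588 / 625 * ((1 + sg (θ (r ω)) * sg (θ (r ω'))) / 2) * K0 ω ω' +
      7 / 50 * ((1 - sg (θ (r ω)) * sg (θ (r ω'))) / 2) * K1 ω ω')) _ _ (fun θ => ?_) ?_
  · set L0 : Ω → Ω → ℝ := fun ω ω' =>
      L ω ω' * (588 / 625 * ((1 + sg (θ (r ω)) * sg (θ (r ω'))) / 2)) with hL0
    set L1 : Ω → Ω → ℝ := fun ω ω' =>
      L ω ω' * (7 / 50 * ((1 - sg (θ (r ω)) * sg (θ (r ω'))) / 2)) with hL1
    have split : ∀ A B : Ω → Ω → ℝ, ∑ ω, ∑ ω', L ω ω' *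
      (588 / 625 * ((1 + sg (θ (r ω)) * sg (θ (r ω'))) / 2) * A ω ω' +
      7 / 50 * ((1 - sg (θ (r ω)) * sg (θ (r ω'))) / 2) * B ω ω') =
        ∑ ω, ∑ ω', L0 ω ω' * A ω ω' + ∑ ω, ∑ ω', L1 ω ω' * B ω ω' := by
      intro A B
      rw [← Finset.sum_add_distrib]
      refine Finset.sum_congr rfl fun ω _ => ?_
      rw [← Finset.sum_add_distrib]
      refine Finset.sum_congr rfl fun ω' _ => ?_
      simp only [hL0, hL1]; ring
    show ∑ ω, ∑ ω', L ω ω' * _ ≤ C
    rw [split]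
    have s1 : ∑ ω, ∑ ω', L1 ω ω' * K1 ω ω' ≤ C - ∑ ω, ∑ ω', L0 ω ω' * K0 ω ω' := by
      apply h1
      intro u1 v1 hu1 hv1
      have s0 : ∑ ω, ∑ ω', L0 ω ω' * K0 ω ω' ≤
          C - ∑ ω, ∑ ω', L1 ω ω' * ∑ i, v1 ω i * u1 ω' i := by
        apply h0
        intro u0 v0 hu0 hv0
        have := h (fun ω => cU (θ (r ω)) (u0 ω) (u1 ω)) (fun ω => cV (θ (r ω)) (v0 ω) (v1 ω))
          (fun ω => N_cU _ _ _ (hu0 ω) (hu1 ω)) (fun ω => cV_le _ _ _ (hv0 ω) (hv1 ω))
        simp only [cV_cU] at this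
        rw [split (fun ω ω' => ∑ j, v0 ω j * u0 ω' j) (fun ω ω' => ∑ j, v1 ω j * u1 ω' j)] at this
        linarith
      linarith
    linarith
  · rw [Finset.sum_comm, Finset.mul_sum]
    refine Finset.sum_congr rfl fun ω _ => ?_
    rw [Finset.sum_comm, Finset.mul_sum]
    refine Finset.sum_congr rfl fun ω' _ => ?_
    have e : ∀ θ : Ω → Z2, L ω ω' *
      (588 / 625 * ((1 + sg (θ (r ω)) * sg (θ (r ω'))) / 2) * K0 ω ω' +
      7 / 50 * ((1 - sg (θ (r ω)) * sg (θ (r ω'))) / 2) * K1 ω ω') =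
        L ω ω' * (588 / 625 / 2 * K0 ω ω' + 7 / 50 / 2 * K1 ω ω') +
        L ω ω' * (588 / 625 / 2 * K0 ω ω' - 7 / 50 / 2 * K1 ω ω') *
          (sg (θ (r ω)) * sg (θ (r ω'))) := fun θ => by ring
    simp only [e]
    rw [Finset.sum_add_distrib, ← Finset.mul_sum _ _ (L ω ω' * _), ← Finset.mul_sum, sign_orth,
      Finset.sum_const, Finset.card_univ, nsmul_eq_mul]
    ring

omit [DecidableEq Ω] in
/-- averaging over signs and translations of the index set -/
lemma avg_diag {d : ℕ} (M : Ω → I d → Ω → I d → ℝ) (C : ℝ)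
    (hM : ∀ u v : Ω → I d → ℝ, AdmU d u → AdmV d v →
      ∑ ω, ∑ ω', ∑ i, ∑ i', v ω i * M ω i ω' i' * u ω' i' ≤ C)
    (u v : Ω → I d → ℝ) (hu : AdmU d u) (hv : AdmV d v) :
    ∑ ω, ∑ ω', ((∑ i, M ω i ω' i) / Fintype.card (I d)) * ∑ i, v ω i * u ω' i ≤ C := by
  have hdiag : ∀ u v : Ω → I d → ℝ, AdmU d u → AdmV d v →
      ∑ ω, ∑ ω', ∑ i, v ω i * M ω i ω' i * u ω' i ≤ C := by
    intro u v hu hv
    refine avg_le (Θ := I d → Z2)
      (fun s => ∑ ω, ∑ ω', ∑ i, ∑ i', (sg (s i) * v ω i) * M ω i ω' i' * (sg (s i') * u ω' i'))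
      _ _ (fun s => ?_) ?_
    · apply hM (fun ω i => sg (s i) * u ω i) (fun ω i => sg (s i) * v ω i)
      · intro ω
        refine le_trans (N_mono d _ _ fun i => ?_) (hu ω)
        rw [abs_mul, abs_sg, one_mul]
      · intro ω x
        have := hv ω (fun i => sg (s i) * x i)
        refine le_trans (le_of_eq ?_) (this.trans (N_mono d _ _ fun i => ?_))
        · exact Finset.sum_congr rfl fun i _ => by ring
        · rw [abs_mul, abs_sg, one_mul]
    · rw [Finset.sum_comm, Finset.mul_sum]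
      refine Finset.sum_congr rfl fun ω _ => ?_
      rw [Finset.sum_comm, Finset.mul_sum]
      refine Finset.sum_congr rfl fun ω' _ => ?_
      rw [Finset.sum_comm, Finset.mul_sum]
      refine Finset.sum_congr rfl fun i _ => ?_
      rw [Finset.sum_comm]
      have e : ∀ i', ∑ s : I d → Z2, (sg (s i) * v ω i) * M ω i ω' i' * (sg (s i') * u ω' i') =
          if i = i' then (Fintype.card (I d → Z2) : ℝ) * (v ω i * M ω i ω' i' * u ω' i') else 0 := by
        intro i'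
        have : ∀ s : I d → Z2, (sg (s i) * v ω i) * M ω i ω' i' * (sg (s i') * u ω' i') =
          (v ω i * M ω i ω' i' * u ω' i') * (sg (s i) * sg (s i')) := fun s => by ring
        simp only [this]
        rw [← Finset.mul_sum, sign_orth]
        split_ifs <;> ring
      simp only [e]
      rw [Finset.sum_ite_eq]
      simp
  have : Nonempty (I d) := ⟨0⟩
  refine avg_le (Θ := I d)
    (fun t => ∑ ω, ∑ ω', ∑ i, v ω (i + t) * M ω i ω' i * u ω' (i + t)) _ _ (fun t => ?_) ?_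
  · apply hdiag (fun ω i => u ω (i + t)) (fun ω i => v ω (i + t))
    · intro ω
      show N d (fun i => u ω (i + t)) ≤ 1
      rw [N_tr]; exact hu ω
    · intro ω x
      have := hv ω (fun i => x (i + -t))
      rw [N_tr] at this
      refine le_trans (le_of_eq ?_) this
      rw [← Equiv.sum_comp (Equiv.addRight t) (fun i => v ω i * x (i + -t))]
      simp
  · rw [Finset.sum_comm, Finset.mul_sum]
    refine Finset.sum_congr rfl fun ω _ => ?_
    rw [Finset.sum_comm, Finset.mul_sum]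
    refine Finset.sum_congr rfl fun ω' _ => ?_
    rw [Finset.sum_comm]
    have e : ∀ i, ∑ t, v ω (i + t) * M ω i ω' i * u ω' (i + t) =
        M ω i ω' i * ∑ j, v ω j * u ω' j := by
      intro i
      rw [← Equiv.sum_comp (Equiv.addLeft i) (fun j => v ω j * u ω' j), Finset.mul_sum]
      exact Finset.sum_congr rfl fun t _ => by simp; ring
    simp only [e]
    rw [← Finset.sum_mul]
    have : (0 : ℝ) < Fintype.card (I d) := by exact_mod_cast Fintype.card_pos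
    field_simp

end Pool.Agent.H366Z.Gro
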