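import Pool.Agent.H366Z.Gro.Space

/-! A weak-star null sequence in the dual of `B(Y)` that is not weakly null. -/

set_option autoImplicit false

namespace Pool.Agent.H366Z.Gro

open Filter Topology

noncomputable def UF : Ultrafilter ℕ := Ultrafilter.of atTop

lemma UF_le : (UF : Filter ℕ) ≤ atTop := Ultrafilter.of_le _

lemma exists_ulim {X : Type} [NormedAddCommGroup X] [NormedSpace ℝ X] (g : ℕ → X →L[ℝ] ℝ)
    (hg : ∀ n, ‖g n‖ ≤ 1) :
    ∃ G : X →L[ℝ] ℝ, ‖G‖ ≤ 1 ∧ ∀ x, Tendsto (fun n => g n x) UF (𝓝 (G x)) := by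
  have hc := WeakDual.isCompact_closedBall (𝕜 := ℝ) (E := X) 0 1
  let g' : ℕ → WeakDual ℝ X := fun n => StrongDual.toWeakDual (g n)
  obtain ⟨G, hG, hle⟩ := hc.ultrafilter_le_nhds (UF.map g') (by
    rw [Ultrafilter.coe_map, le_principal_iff, mem_map]
    refine Filter.Eventually.of_forall fun n => ?_
    simpa [g'] using hg n)
  refine ⟨WeakDual.toStrongDual G, by simpa using hG, fun x => ?_⟩
  have : Tendsto g' UF (𝓝 G) := hle
  exact ((WeakDual.eval_continuous x).tendsto G).comp this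

def fl (j : ℕ) {n : ℕ} (ω : Om n) : Om n := fun i => if (i : ℕ) = j then ω i + 1 else ω i

lemma fl_fl (j : ℕ) {n : ℕ} (ω : Om n) : fl j (fl j ω) = ω := by
  funext i
  unfold fl
  split_ifs
  · rw [add_assoc, z2_11, add_zero]
  · rfl

def flE (j : ℕ) : J ≃ J where
  toFun z := ⟨z.1, fl j z.2⟩
  invFun z := ⟨z.1, fl j z.2⟩
  left_inv z := by simp [fl_fl]
  right_inv z := by simp [fl_fl]

lemma hasSum_fl (j : ℕ) (y : Y) :
    HasSum (fun z : J => ‖y ⟨z.1, fl j z.2⟩‖ ^ 2) (‖y‖ ^ 2) :=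
  (flE j).hasSum_iff.2 (hasSum_sq y)

noncomputable def tauL (j : ℕ) : Y →ₗ[ℝ] Y where
  toFun y := ⟨fun z => y ⟨z.1, fl j z.2⟩, by
    apply memℓp_gen
    have := (hasSum_fl j y).summable
    simpa using this⟩
  map_add' _ _ := rfl
  map_smul' _ _ := rfl

lemma tauL_norm (j : ℕ) (y : Y) : ‖tauL j y‖ = ‖y‖ := by
  have h := (hasSum_sq (tauL j y)).unique (hasSum_fl j y)
  exact (pow_left_inj₀ (norm_nonneg _) (norm_nonneg _) (by norm_num)).1 h

noncomputable def tau (j : ℕ) : Y →L[ℝ] Y :=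
  (tauL j).mkContinuous 1 fun y => by rw [tauL_norm, one_mul]

lemma tau_norm (j : ℕ) : ‖tau j‖ ≤ 1 := LinearMap.mkContinuous_norm_le _ zero_le_one _

lemma coord_tau (j n : ℕ) (ω ω' : Om n) (i : I n) :
    coordL n ω i (tau j (bas n ω' i)) = if fl j ω = ω' then 1 else 0 := by
  have e : coordL n ω i (tau j (bas n ω' i)) =
      (show I n → ℝ from bas n ω' i ⟨n, fl j ω⟩) i := rfl
  rw [e]
  unfold bas
  split_ifs with h
  · subst h
    rw [lp.single_apply_self (E := fun z : J => E z.1) 2 ⟨n, fl j ω⟩]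
    exact Pi.single_eq_same (M := fun _ : I n => ℝ) i 1
  · rw [lp.single_apply_ne (E := fun z : J => E z.1)]
    · rfl
    · intro h'
      exact h (eq_of_heq (Sigma.mk.inj h').2)

lemma ind_fl {j n : ℕ} (hj : j < n) (k : ℕ) (ω : Om n) :
    ind k ω (fl j ω) = if k ≤ j then 1 else 0 := by
  unfold ind
  congr 1
  apply propext
  constructor
  · intro h
    by_contra hk
    have := congrFun h ⟨j, hj⟩
    simp only [rep, fl, not_le.1 hk, if_true] at this
    have h2 : ∀ a : Z2, a ≠ a + 1 := by decide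
    exact h2 _ this
  · intro h
    funext i
    unfold rep fl
    split_ifs with h1 h2
    · omega
    · rfl
    · rfl

lemma psi_tau {j n : ℕ} (hj : j < n) (k : ℕ) : psi n k (tau j) = if k ≤ j then 1 else 0 := by
  rw [psi_apply]
  have hp : (0 : ℝ) < Fintype.card (Om n) := by exact_mod_cast Fintype.card_pos
  have : Nonempty (I n) := ⟨0⟩
  have hq : (0 : ℝ) < Fintype.card (I n) := by exact_mod_cast Fintype.card_pos
  have e : ∀ ω : Om n, ∑ ω' : Om n, ((∑ i, coordL n ω i (tau j (bas n ω' i))) /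
      Fintype.card (I n) / Fintype.card (Om n)) * ind k ω ω' =
      (if k ≤ j then 1 else 0) / Fintype.card (Om n) := by
    intro ω
    rw [Finset.sum_eq_single (fl j ω)]
    · simp only [coord_tau, if_true, ind_fl hj]
      rw [Finset.sum_const, Finset.card_univ, nsmul_eq_mul]
      field_simp
    · intro ω' _ h
      simp only [coord_tau, if_neg (Ne.symm h)]
      simp
    · simp
  simp only [e]
  rw [Finset.sum_const, Finset.card_univ, nsmul_eq_mul]
  field_simp

lemma tendsto_lc {F : ℕ → ℕ → ℝ} {f : ℕ → ℝ} (h : ∀ k, Tendsto (fun n => F n k) UF (𝓝 (f k)))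
    (c : ℕ →₀ ℝ) : Tendsto (fun n => lc (F n) c) UF (𝓝 (lc f c)) := by
  induction c using Finsupp.induction_linear with
  | zero => simp
  | add f g hf hg => simp only [map_add]; exact hf.add hg
  | single k x =>
    simp only [Finsupp.linearCombination_single, smul_eq_mul]
    exact (h k).const_mul x

theorem main : ∃ f : ℕ → ((Y →L[ℝ] Y) →L[ℝ] ℝ),
    (∀ T : Y →L[ℝ] Y, Tendsto (fun n => f n T) atTop (𝓝 0)) ∧
    ∃ φ : ((Y →L[ℝ] Y) →L[ℝ] ℝ) →L[ℝ] ℝ, ∀ n, φ (f n) = 1 := by
  choose P hP1 hP2 using fun k => exists_ulim (fun n => psi n k) (fun n => psi_norm n k)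
  have hPt : ∀ k j, P k (tau j) = if k ≤ j then 1 else 0 := by
    intro k j
    refine tendsto_nhds_unique (hP2 k (tau j)) ?_
    refine (tendsto_const_nhds.congr' ?_).mono_left UF_le
    filter_upwards [eventually_gt_atTop j] with n hn
    exact (psi_tau hn k).symm
  have hbd : ∀ k T, |P k T| ≤ ‖T‖ := fun k T => by
    have := (P k).le_opNorm T
    rw [Real.norm_eq_abs] at this
    exact this.trans (mul_le_of_le_one_left (norm_nonneg _) (hP1 k))
  have hconv : ∀ T, ∃ c, Tendsto (fun k => P k T) atTop (𝓝 c) := by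
    intro T
    refine tendsto_of_no_upcrossings dense_univ ?_ ?_ ?_
    · rintro lam - mu - hlt ⟨h1, h2⟩
      have hk := exists_kernel (fun k => P k T) lam mu
        (fun m => by
          obtain ⟨k, hk, hk'⟩ := frequently_atTop.1 h1 m
          exact ⟨k, hk, hk'.le⟩)
        (fun m => by
          obtain ⟨k, hk, hk'⟩ := frequently_atTop.1 h2 m
          exact ⟨k, hk, hk'.le⟩)
      have hW : ∀ d : ℕ, (mu - lam) * (588 / 625 + 7 / 100) ^ d ≤ ‖T‖ + |lam| := by
        intro d
        obtain ⟨c, hi, -, -, hv, hr⟩ := hk d 0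
        have h3 : lc (fun k => P k T) c ≤ ‖T‖ := by
          refine le_of_tendsto (tendsto_lc (F := fun n k => psi n k T) (fun k => hP2 k T) c) ?_
          refine Filter.Eventually.filter_mono UF_le ?_
          filter_upwards [eventually_ge_atTop d] with n hn
          exact psi_lc_le n c (Rl_pad_le hn (hr n)) T
        have h4 : (588 / 625 : ℝ) ^ d ≤ 1 := pow_le_one₀ (by norm_num) (by norm_num)
        have h5 : (0 : ℝ) ≤ (588 / 625) ^ d := by positivity
        have h6 : -|lam| ≤ lam * (588 / 625) ^ d := by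
          have a1 := neg_abs_le lam
          have a2 := abs_nonneg lam
          nlinarith
        linarith
      have ht : Tendsto (fun d : ℕ => (mu - lam) * (588 / 625 + 7 / 100 : ℝ) ^ d) atTop atTop :=
        (tendsto_pow_atTop_atTop_of_one_lt (by norm_num)).const_mul_atTop (sub_pos.2 hlt)
      obtain ⟨d, hd⟩ := (ht.eventually_gt_atTop (‖T‖ + |lam|)).exists
      exact absurd (hW d) (not_le.2 hd)
    · exact isBoundedUnder_of ⟨‖T‖, fun k => (abs_le.1 (hbd k T)).2⟩
    · exact isBoundedUnder_of ⟨-‖T‖, fun k => (abs_le.1 (hbd k T)).1⟩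
  obtain ⟨Q, -, hQ⟩ := exists_ulim P hP1
  have hPQ : ∀ T, Tendsto (fun k => P k T) atTop (𝓝 (Q T)) := by
    intro T
    obtain ⟨c, hc⟩ := hconv T
    rw [tendsto_nhds_unique (hQ T) (hc.mono_left UF_le)]
    exact hc
  have hQt : ∀ j, Q (tau j) = 0 := by
    intro j
    refine tendsto_nhds_unique (hPQ (tau j)) ?_
    refine tendsto_const_nhds.congr' ?_
    filter_upwards [eventually_gt_atTop j] with k hk
    rw [hPt, if_neg (not_le.2 hk)]
  obtain ⟨φ, -, hφ⟩ := exists_ulim (X := (Y →L[ℝ] Y) →L[ℝ] ℝ)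
    (fun j => ContinuousLinearMap.apply ℝ ℝ (tau j)) (fun j => by
      refine ContinuousLinearMap.opNorm_le_bound _ zero_le_one fun g => ?_
      rw [one_mul, ContinuousLinearMap.apply_apply]
      exact (g.le_opNorm _).trans (mul_le_of_le_one_right (norm_nonneg _) (tau_norm j)))
  refine ⟨fun k => P k - Q, fun T => ?_, φ, fun k => ?_⟩
  · have := (hPQ T).sub_const (Q T)
    simpa using this
  · refine tendsto_nhds_unique (hφ _) ?_
    refine (tendsto_const_nhds.congr' ?_).mono_left UF_le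
    filter_upwards [eventually_ge_atTop k] with j hj
    simp [hPt, hQt, hj]

end Pool.Agent.H366Z.Gro
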