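import Mathlib

/-! Iterated two-point `l2 (l4 (l2 (l4 ...)))` norms. -/

set_option autoImplicit false

namespace Pool.Agent.H366Z.Gro

abbrev Z2 := ZMod 2

lemma z2_cases (a : Z2) : a = 0 ∨ a = 1 := by revert a; decide

lemma sum_z2 (f : Z2 → ℝ) : ∑ a, f a = f 0 + f 1 := by
  have : (Finset.univ : Finset Z2) = {0, 1} := by decide
  rw [this, Finset.sum_pair (by decide)]

lemma z2_11 : (1 : Z2) + 1 = 0 := by decide

/-- index sets -/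
def I : ℕ → Type
  | 0 => Unit
  | d + 1 => Z2 × Z2 × I d

instance instFintypeI : ∀ d, Fintype (I d)
  | 0 => inferInstanceAs (Fintype Unit)
  | d + 1 => letI := instFintypeI d; inferInstanceAs (Fintype (Z2 × Z2 × I d))

instance instDecEqI : ∀ d, DecidableEq (I d)
  | 0 => inferInstanceAs (DecidableEq Unit)
  | d + 1 => letI := instDecEqI d; inferInstanceAs (DecidableEq (Z2 × Z2 × I d))

instance instGroupI : ∀ d, AddCommGroup (I d)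
  | 0 => inferInstanceAs (AddCommGroup Unit)
  | d + 1 => letI := instGroupI d; inferInstanceAs (AddCommGroup (Z2 × Z2 × I d))

lemma sum_I_succ (d : ℕ) (f : I (d + 1) → ℝ) :
    ∑ i, f i = (∑ j : I d, f (0, 0, j) + ∑ j : I d, f (0, 1, j)) +
      (∑ j : I d, f (1, 0, j) + ∑ j : I d, f (1, 1, j)) := by
  have key : ∀ g : Z2 × Z2 × I d → ℝ, ∑ i, g i =
      (∑ j : I d, g (0, 0, j) + ∑ j : I d, g (0, 1, j)) +
      (∑ j : I d, g (1, 0, j) + ∑ j : I d, g (1, 1, j)) := by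
    intro g
    rw [Fintype.sum_prod_type, sum_z2, Fintype.sum_prod_type, Fintype.sum_prod_type, sum_z2,
      sum_z2]
  exact key f

lemma add_I_succ (d : ℕ) (a b a' b' : Z2) (j j' : I d) :
    @HAdd.hAdd (I (d + 1)) (I (d + 1)) (I (d + 1)) _ (a, b, j) (a', b', j') =
      (a + a', b + b', j + j') := rfl

lemma cs {a b c e R S : ℝ} (hR : 0 ≤ R) (hS : 0 ≤ S) (h1 : a ^ 2 + b ^ 2 ≤ R ^ 2)
    (h2 : c ^ 2 + e ^ 2 ≤ S ^ 2) : a * c + b * e ≤ R * S := by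
  apply le_trans (le_abs_self _)
  apply abs_le_of_sq_le_sq _ (by positivity)
  have h3 : (a * c + b * e) ^ 2 ≤ (a ^ 2 + b ^ 2) * (c ^ 2 + e ^ 2) := by
    nlinarith [sq_nonneg (a * e - b * c)]
  calc (a * c + b * e) ^ 2 ≤ (a ^ 2 + b ^ 2) * (c ^ 2 + e ^ 2) := h3
    _ ≤ R ^ 2 * S ^ 2 := by gcongr
    _ = (R * S) ^ 2 := by ring

noncomputable def n2 (s t : ℝ) : ℝ := √(s ^ 2 + t ^ 2)
noncomputable def n4 (s t : ℝ) : ℝ := √(√(s ^ 4 + t ^ 4))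

lemma n2_nonneg (s t : ℝ) : 0 ≤ n2 s t := Real.sqrt_nonneg _
lemma n4_nonneg (s t : ℝ) : 0 ≤ n4 s t := Real.sqrt_nonneg _
lemma n2_sq (s t : ℝ) : n2 s t ^ 2 = s ^ 2 + t ^ 2 := Real.sq_sqrt (by positivity)
lemma n4_pow (s t : ℝ) : n4 s t ^ 4 = s ^ 4 + t ^ 4 := by
  have h1 : n4 s t ^ 2 = √(s ^ 4 + t ^ 4) := Real.sq_sqrt (Real.sqrt_nonneg _)
  have h2 : √(s ^ 4 + t ^ 4) ^ 2 = s ^ 4 + t ^ 4 := Real.sq_sqrt (by positivity)
  calc n4 s t ^ 4 = (n4 s t ^ 2) ^ 2 := by ring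
    _ = _ := by rw [h1, h2]

lemma n2_comm (s t : ℝ) : n2 s t = n2 t s := by unfold n2; rw [add_comm]
lemma n4_comm (s t : ℝ) : n4 s t = n4 t s := by unfold n4; rw [add_comm]

lemma n2_le {s t R : ℝ} (hR : 0 ≤ R) (h : s ^ 2 + t ^ 2 ≤ R ^ 2) : n2 s t ≤ R := by
  rw [← n2_sq] at h
  exact le_of_pow_le_pow_left₀ (by norm_num) hR h
lemma n4_le {s t R : ℝ} (hR : 0 ≤ R) (h : s ^ 4 + t ^ 4 ≤ R ^ 4) : n4 s t ≤ R := by
  rw [← n4_pow] at h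
  exact le_of_pow_le_pow_left₀ (by norm_num) hR h

lemma n2_mono {s t s' t' : ℝ} (hs : 0 ≤ s) (ht : 0 ≤ t) (h1 : s ≤ s') (h2 : t ≤ t') :
    n2 s t ≤ n2 s' t' := by
  apply n2_le (n2_nonneg _ _); rw [n2_sq]; gcongr
lemma n4_mono {s t s' t' : ℝ} (hs : 0 ≤ s) (ht : 0 ≤ t) (h1 : s ≤ s') (h2 : t ≤ t') :
    n4 s t ≤ n4 s' t' := by
  apply n4_le (n4_nonneg _ _); rw [n4_pow]; gcongr

lemma le_n2_left {s t : ℝ} : s ≤ n2 s t := by
  apply le_trans (le_abs_self _)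
  apply abs_le_of_sq_le_sq _ (n2_nonneg _ _)
  rw [n2_sq]; nlinarith [sq_nonneg t]
lemma le_n2_right {s t : ℝ} : t ≤ n2 s t := by rw [n2_comm]; exact le_n2_left
lemma le_n4_left {s t : ℝ} : s ≤ n4 s t := by
  apply le_of_pow_le_pow_left₀ (n := 4) (by norm_num) (n4_nonneg _ _)
  rw [n4_pow]; have : 0 ≤ t ^ 4 := by positivity
  linarith
lemma le_n4_right {s t : ℝ} : t ≤ n4 s t := by rw [n4_comm]; exact le_n4_left

lemma n2_mul {c s t : ℝ} (hc : 0 ≤ c) : n2 (c * s) (c * t) = c * n2 s t := by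
  have h : n2 (c * s) (c * t) ^ 2 = (c * n2 s t) ^ 2 := by
    rw [mul_pow, n2_sq, n2_sq]; ring
  exact (pow_left_inj₀ (n2_nonneg _ _) (mul_nonneg hc (n2_nonneg _ _)) (by norm_num)).1 h
lemma n4_mul {c s t : ℝ} (hc : 0 ≤ c) : n4 (c * s) (c * t) = c * n4 s t := by
  have h : n4 (c * s) (c * t) ^ 4 = (c * n4 s t) ^ 4 := by
    rw [mul_pow, n4_pow, n4_pow]; ring
  exact (pow_left_inj₀ (n4_nonneg _ _) (mul_nonneg hc (n4_nonneg _ _)) (by norm_num)).1 h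

lemma n2_add (s t s' t' : ℝ) : n2 (s + s') (t + t') ≤ n2 s t + n2 s' t' := by
  apply n2_le (add_nonneg (n2_nonneg _ _) (n2_nonneg _ _))
  have h := cs (n2_nonneg s t) (n2_nonneg s' t') (n2_sq s t).ge (n2_sq s' t').ge
  nlinarith [n2_sq s t, n2_sq s' t']

lemma n4_add (s t s' t' : ℝ) : n4 (s + s') (t + t') ≤ n4 s t + n4 s' t' := by
  apply n4_le (add_nonneg (n4_nonneg _ _) (n4_nonneg _ _))
  set A := n4 s t
  set B := n4 s' t'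
  have hA : 0 ≤ A := n4_nonneg _ _
  have hB : 0 ≤ B := n4_nonneg _ _
  have eA : A ^ 4 = s ^ 4 + t ^ 4 := n4_pow _ _
  have eB : B ^ 4 = s' ^ 4 + t' ^ 4 := n4_pow _ _
  have a1 : (s ^ 2) ^ 2 + (t ^ 2) ^ 2 ≤ (A ^ 2) ^ 2 := by nlinarith
  have b1 : (s' ^ 2) ^ 2 + (t' ^ 2) ^ 2 ≤ (B ^ 2) ^ 2 := by nlinarith
  have h2 : s ^ 2 * s' ^ 2 + t ^ 2 * t' ^ 2 ≤ A ^ 2 * B ^ 2 :=
    cs (by positivity) (by positivity) a1 b1
  have ab : (s * s') ^ 2 + (t * t') ^ 2 ≤ (A * B) ^ 2 := by nlinarith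
  have h1 : s ^ 2 * (s * s') + t ^ 2 * (t * t') ≤ A ^ 2 * (A * B) :=
    cs (by positivity) (by positivity) a1 ab
  have h3 : s' ^ 2 * (s * s') + t' ^ 2 * (t * t') ≤ B ^ 2 * (A * B) :=
    cs (by positivity) (by positivity) b1 ab
  nlinarith

/-- the iterated norm -/
noncomputable def N : ∀ d, (I d → ℝ) → ℝ
  | 0, x => |x ()|
  | d + 1, x => n2 (n4 (N d fun j => x (0, 0, j)) (N d fun j => x (0, 1, j)))
      (n4 (N d fun j => x (1, 0, j)) (N d fun j => x (1, 1, j)))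

lemma N_succ (d : ℕ) (x : I (d + 1) → ℝ) :
    N (d + 1) x = n2 (n4 (N d fun j => x (0, 0, j)) (N d fun j => x (0, 1, j)))
      (n4 (N d fun j => x (1, 0, j)) (N d fun j => x (1, 1, j))) := rfl

lemma N_nonneg : ∀ d (x : I d → ℝ), 0 ≤ N d x
  | 0, _ => abs_nonneg _
  | _ + 1, _ => n2_nonneg _ _

lemma N_mono : ∀ d (x y : I d → ℝ), (∀ i, |x i| ≤ |y i|) → N d x ≤ N d y
  | 0, _, _, h => h ()
  | d + 1, x, y, h => by
    rw [N_succ, N_succ]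
    apply n2_mono (n4_nonneg _ _) (n4_nonneg _ _) <;>
    apply n4_mono (N_nonneg _ _) (N_nonneg _ _) <;>
    exact N_mono d _ _ fun j => h _

lemma N_smul : ∀ d (c : ℝ) (x : I d → ℝ), N d (fun i => c * x i) = |c| * N d x
  | 0, _, _ => abs_mul _ _
  | d + 1, c, x => by
    rw [N_succ, N_succ, N_smul d, N_smul d, N_smul d, N_smul d, n4_mul (abs_nonneg _),
      n4_mul (abs_nonneg _), n2_mul (abs_nonneg _)]

lemma N_zero (d : ℕ) : N d (fun _ => 0) = 0 := by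
  have := N_smul d 0 (fun _ => 0)
  simpa using this

lemma N_add : ∀ d (x y : I d → ℝ), N d (fun i => x i + y i) ≤ N d x + N d y
  | 0, _, _ => abs_add_le _ _
  | d + 1, x, y => by
    rw [N_succ, N_succ, N_succ]
    refine le_trans ?_ (n2_add _ _ _ _)
    apply n2_mono (n4_nonneg _ _) (n4_nonneg _ _) <;>
    refine le_trans ?_ (n4_add _ _ _ _) <;>
    apply n4_mono (N_nonneg _ _) (N_nonneg _ _) <;>
    exact N_add d _ _

lemma N_block (d : ℕ) (x : I (d + 1) → ℝ) (a b : Z2) :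
    N d (fun j => x (a, b, j)) ≤ N (d + 1) x := by
  rw [N_succ]
  rcases z2_cases a with rfl | rfl <;> rcases z2_cases b with rfl | rfl
  · exact le_n4_left.trans le_n2_left
  · exact le_n4_right.trans le_n2_left
  · exact le_n4_left.trans le_n2_right
  · exact le_n4_right.trans le_n2_right

lemma N_coord : ∀ d (x : I d → ℝ) (i : I d), |x i| ≤ N d x
  | 0, _, _ => le_rfl
  | d + 1, x, (a, b, j) => (N_coord d (fun j => x (a, b, j)) j).trans (N_block d x a b)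

lemma N_tr : ∀ d (x : I d → ℝ) (t : I d), N d (fun i => x (i + t)) = N d x
  | 0, _, _ => rfl
  | d + 1, x, (a, b, t) => by
    rw [N_succ, N_succ]
    simp only [add_I_succ]
    rw [N_tr d (fun j => x (0 + a, 0 + b, j)), N_tr d (fun j => x (0 + a, 1 + b, j)),
      N_tr d (fun j => x (1 + a, 0 + b, j)), N_tr d (fun j => x (1 + a, 1 + b, j))]
    rcases z2_cases a with rfl | rfl <;> rcases z2_cases b with rfl | rfl <;>
    simp only [add_zero, zero_add, z2_11]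
    · rw [n4_comm, n4_comm (N d fun j => x (1, 1, j))]
    · rw [n2_comm]
    · rw [n2_comm, n4_comm, n4_comm (N d fun j => x (1, 1, j))]

lemma clark2 {p0 p1 q0 q1 a0 a1 b0 b1 : ℝ}
    (h0 : p0 ^ 4 + q0 ^ 4 ≤ 4 * (a0 ^ 2 + b0 ^ 2) ^ 2)
    (h1 : p1 ^ 4 + q1 ^ 4 ≤ 4 * (a1 ^ 2 + b1 ^ 2) ^ 2) :
    n2 p0 p1 ^ 4 + n2 q0 q1 ^ 4 ≤ 4 * (n2 a0 a1 ^ 2 + n2 b0 b1 ^ 2) ^ 2 := by
  have e1 : n2 p0 p1 ^ 4 = (p0 ^ 2 + p1 ^ 2) ^ 2 := by rw [← n2_sq]; ring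
  have e2 : n2 q0 q1 ^ 4 = (q0 ^ 2 + q1 ^ 2) ^ 2 := by rw [← n2_sq]; ring
  rw [e1, e2, n2_sq, n2_sq]
  have h := cs (a := p0 ^ 2) (b := q0 ^ 2) (c := p1 ^ 2) (e := q1 ^ 2)
    (R := 2 * (a0 ^ 2 + b0 ^ 2)) (S := 2 * (a1 ^ 2 + b1 ^ 2)) (by positivity) (by positivity)
    (by nlinarith) (by nlinarith)
  nlinarith

lemma clark4 {p0 p1 q0 q1 a0 a1 b0 b1 : ℝ}
    (h0 : p0 ^ 4 + q0 ^ 4 ≤ 4 * (a0 ^ 2 + b0 ^ 2) ^ 2)
    (h1 : p1 ^ 4 + q1 ^ 4 ≤ 4 * (a1 ^ 2 + b1 ^ 2) ^ 2) :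
    n4 p0 p1 ^ 4 + n4 q0 q1 ^ 4 ≤ 4 * (n4 a0 a1 ^ 2 + n4 b0 b1 ^ 2) ^ 2 := by
  rw [n4_pow, n4_pow]
  have eA := n4_pow a0 a1
  have eB := n4_pow b0 b1
  have h := cs (a := a0 ^ 2) (b := a1 ^ 2) (c := b0 ^ 2) (e := b1 ^ 2)
    (R := n4 a0 a1 ^ 2) (S := n4 b0 b1 ^ 2) (by positivity) (by positivity)
    (by nlinarith) (by nlinarith)
  nlinarith

lemma N_clark : ∀ d (x y : I d → ℝ),
    N d (fun i => x i + y i) ^ 4 + N d (fun i => x i - y i) ^ 4 ≤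
      4 * (N d x ^ 2 + N d y ^ 2) ^ 2
  | 0, x, y => by
    have e : ∀ u : ℝ, |u| ^ 4 = u ^ 4 := fun u => by
      rw [← abs_pow]; exact abs_of_nonneg (by positivity)
    show |x () + y ()| ^ 4 + |x () - y ()| ^ 4 ≤ 4 * (|x ()| ^ 2 + |y ()| ^ 2) ^ 2
    rw [e, e, sq_abs, sq_abs]
    nlinarith [sq_nonneg (x () ^ 2 - y () ^ 2)]
  | d + 1, x, y => by
    rw [N_succ, N_succ, N_succ, N_succ]
    apply clark2 <;> apply clark4 <;> exact N_clark d _ _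

end Pool.Agent.H366Z.Gro
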