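import Pool.Agent.H366Z.Gro.Induct

/-! The uniformly convex space. -/

set_option autoImplicit false

namespace Pool.Agent.H366Z.Gro

def E (d : ℕ) : Type := I d → ℝ

instance (d : ℕ) : AddCommGroup (E d) := inferInstanceAs (AddCommGroup (I d → ℝ))
instance (d : ℕ) : Module ℝ (E d) := inferInstanceAs (Module ℝ (I d → ℝ))

noncomputable def normE (d : ℕ) : AddGroupNorm (E d) where
  toFun x := N d x
  map_zero' := N_zero d
  add_le' x y := N_add d x y
  neg' x := by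
    have := N_smul d (-1) x
    simp only [neg_mul, one_mul, abs_neg, abs_one] at this
    exact this
  eq_zero_of_map_eq_zero' x h := by
    funext i
    have := N_coord d x i
    rw [show N d x = 0 from h] at this
    exact abs_nonpos_iff.1 this

noncomputable instance (d : ℕ) : NormedAddCommGroup (E d) := (normE d).toNormedAddCommGroup

lemma norm_E (d : ℕ) (x : E d) : ‖x‖ = N d x := rfl

noncomputable instance (d : ℕ) : NormedSpace ℝ (E d) where
  norm_smul_le c x := (N_smul d c x).le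

instance (d : ℕ) : FiniteDimensional ℝ (E d) := inferInstanceAs (Module.Finite ℝ (I d → ℝ))

instance (d : ℕ) : CompleteSpace (E d) := FiniteDimensional.complete ℝ _

abbrev J := Σ n : ℕ, Om n

noncomputable abbrev Y := lp (fun z : J => E z.1) 2

lemma hasSum_sq (y : Y) : HasSum (fun z => ‖y z‖ ^ 2) (‖y‖ ^ 2) := by
  have := lp.hasSum_norm (p := 2) (by norm_num) y
  simpa using this

lemma clark_lin {c s : ℝ} (hcs : c ^ 2 + s ^ 2 ≤ 1) (x y : Y) :
    c * ‖x + y‖ ^ 2 + s * ‖x - y‖ ^ 2 ≤ 2 * (‖x‖ ^ 2 + ‖y‖ ^ 2) := by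
  refine hasSum_le (fun z => ?_) (((hasSum_sq (x + y)).mul_left c).add
    ((hasSum_sq (x - y)).mul_left s)) (((hasSum_sq x).add (hasSum_sq y)).mul_left 2)
  have h := N_clark z.1 (x z) (y z)
  have e1 : ‖(x + y) z‖ = N z.1 (fun i => x z i + y z i) := rfl
  have e2 : ‖(x - y) z‖ = N z.1 (fun i => x z i - y z i) := rfl
  rw [e1, e2, norm_E, norm_E]
  have := cs (a := c) (b := s) (c := N z.1 (fun i => x z i + y z i) ^ 2)
    (e := N z.1 (fun i => x z i - y z i) ^ 2) (R := 1)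
    (S := 2 * (N z.1 (x z) ^ 2 + N z.1 (y z) ^ 2)) zero_le_one (by positivity) (by linarith)
    (by nlinarith)
  linarith

instance : UniformConvexSpace Y where
  uniform_convex ε hε := by
    refine ⟨ε ^ 4 / 64, by positivity, fun x hx y hy h => ?_⟩
    have h2 : ‖x - y‖ ≤ 2 := (norm_sub_le _ _).trans (by rw [hx, hy]; norm_num)
    have h3 : ‖x + y‖ ≤ 2 := (norm_add_le _ _).trans (by rw [hx, hy]; norm_num)
    have hε2 : ε ≤ 2 := h.trans h2
    have he : ε ^ 2 ≤ 4 := by nlinarith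
    have he0 : 0 ≤ ε ^ 2 := by positivity
    have key := clark_lin (c := 1 - (ε ^ 2 / 8) ^ 2) (s := ε ^ 2 / 8) (by
      have : (ε ^ 2 / 8) ^ 2 ≤ 1 := by nlinarith
      have h0 : 0 ≤ (ε ^ 2 / 8) ^ 2 := by positivity
      nlinarith) x y
    rw [hx, hy] at key
    have hP : ‖x + y‖ ^ 2 ≤ 4 := by nlinarith [norm_nonneg (x + y)]
    have hQ : ε ^ 2 ≤ ‖x - y‖ ^ 2 := by gcongr
    have h4 : ε ^ 4 ≤ 16 := by nlinarith
    have h5 : ‖x + y‖ ^ 2 ≤ (2 - ε ^ 4 / 64) ^ 2 := by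
      have a1 : (ε ^ 2 / 8) ^ 2 * ‖x + y‖ ^ 2 ≤ (ε ^ 2 / 8) ^ 2 * 4 := by gcongr
      have a2 : ε ^ 2 / 8 * ε ^ 2 ≤ ε ^ 2 / 8 * ‖x - y‖ ^ 2 := by gcongr
      nlinarith [sq_nonneg (ε ^ 4 / 64)]
    exact le_of_pow_le_pow_left₀ (by norm_num) (by linarith) h5

noncomputable def emb (n : ℕ) (u : Om n → I n → ℝ) : Y :=
  ∑ ω : Om n, lp.single 2 (⟨n, ω⟩ : J) (show E n from u ω)

lemma emb_apply (n : ℕ) (u : Om n → I n → ℝ) (ω : Om n) : emb n u ⟨n, ω⟩ = u ω := by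
  unfold emb
  rw [lp.coeFn_sum, Finset.sum_apply, Finset.sum_eq_single ω]
  · exact lp.single_apply_self (E := fun z : J => E z.1) 2 ⟨n, ω⟩ _
  · intro ω' _ h
    apply lp.single_apply_ne (E := fun z : J => E z.1)
    intro h'
    exact h (eq_of_heq (Sigma.mk.inj h').2).symm
  · simp

lemma emb_apply_ne (n : ℕ) (u : Om n → I n → ℝ) (z : J) (hz : ∀ ω, z ≠ ⟨n, ω⟩) :
    emb n u z = 0 := by
  unfold emb
  rw [lp.coeFn_sum, Finset.sum_apply]
  exact Finset.sum_eq_zero fun ω _ => lp.single_apply_ne (E := fun z : J => E z.1) _ _ _ (hz ω)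

lemma sum_map_sigma (n : ℕ) (f : J → ℝ) :
    ∑ z ∈ Finset.univ.map (Function.Embedding.sigmaMk (β := Om) n), f z = ∑ ω : Om n, f ⟨n, ω⟩ := by
  rw [Finset.sum_map]; rfl

lemma emb_norm (n : ℕ) (u : Om n → I n → ℝ) (hu : AdmU n u) :
    ‖emb n u‖ ^ 2 ≤ Fintype.card (Om n) := by
  have h1 : HasSum (fun z => ‖emb n u z‖ ^ 2)
      (∑ z ∈ Finset.univ.map (Function.Embedding.sigmaMk (β := Om) n), ‖emb n u z‖ ^ 2) := by
    apply hasSum_sum_of_ne_finset_zero
    intro z hz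
    rw [emb_apply_ne n u z]
    · simp
    · rintro ω rfl
      exact hz (Finset.mem_map.2 ⟨ω, Finset.mem_univ _, rfl⟩)
  rw [(hasSum_sq _).unique h1, sum_map_sigma]
  calc ∑ ω : Om n, ‖emb n u ⟨n, ω⟩‖ ^ 2 ≤ ∑ _ω : Om n, (1 : ℝ) := by
        refine Finset.sum_le_sum fun ω _ => ?_
        rw [emb_apply, norm_E]
        have := hu ω
        have h0 := N_nonneg n (u ω)
        nlinarith
    _ = _ := by simp

lemma sum_norm_sq_le (n : ℕ) (y : Y) : ∑ ω : Om n, ‖y ⟨n, ω⟩‖ ^ 2 ≤ ‖y‖ ^ 2 := by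
  rw [← sum_map_sigma n (fun z => ‖y z‖ ^ 2)]
  exact sum_le_hasSum _ (fun _ _ => by positivity) (hasSum_sq y)

noncomputable def coordL (n : ℕ) (ω : Om n) (i : I n) : Y →L[ℝ] ℝ :=
  LinearMap.mkContinuous
    { toFun := fun y => (show I n → ℝ from y ⟨n, ω⟩) i
      map_add' := fun _ _ => rfl
      map_smul' := fun _ _ => rfl } 1 (fun y => by
    rw [one_mul]
    exact (N_coord n _ i).trans (lp.norm_apply_le_norm (by norm_num) y ⟨n, ω⟩))

lemma coordL_apply (n : ℕ) (ω : Om n) (i : I n) (y : Y) :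
    coordL n ω i y = (show I n → ℝ from y ⟨n, ω⟩) i := rfl

noncomputable def bas (n : ℕ) (ω : Om n) (i : I n) : Y :=
  lp.single 2 (⟨n, ω⟩ : J) (show E n from (Pi.single i 1 : I n → ℝ))

lemma emb_eq (n : ℕ) (u : Om n → I n → ℝ) : emb n u = ∑ ω, ∑ i, u ω i • bas n ω i := by
  unfold emb
  refine Finset.sum_congr rfl fun ω _ => ?_
  have e : (show E n from u ω) = ∑ i, u ω i • (show E n from (Pi.single i 1 : I n → ℝ)) :=
    pi_eq_sum_univ' (u ω)
  rw [e]
  have := map_sum (lp.lsingle (𝕜 := ℝ) (E := fun z : J => E z.1) 2 ⟨n, ω⟩)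
    (fun i => u ω i • (show E n from (Pi.single i 1 : I n → ℝ))) Finset.univ
  simp only [map_smul] at this
  exact this

lemma pair_bound (T : Y →L[ℝ] Y) (n : ℕ) (u v : Om n → I n → ℝ) (hu : AdmU n u) (hv : AdmV n v) :
    ∑ ω, ∑ ω', ∑ i, ∑ i', v ω i * coordL n ω i (T (bas n ω' i')) * u ω' i' ≤
      Fintype.card (Om n) * ‖T‖ := by
  have e : ∀ ω, ∑ ω', ∑ i, ∑ i', v ω i * coordL n ω i (T (bas n ω' i')) * u ω' i' =
      ∑ i, v ω i * coordL n ω i (T (emb n u)) := by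
    intro ω
    rw [Finset.sum_comm]
    refine Finset.sum_congr rfl fun i _ => ?_
    rw [emb_eq]
    simp only [map_sum, map_smul, smul_eq_mul, Finset.mul_sum]
    exact Finset.sum_congr rfl fun ω' _ => Finset.sum_congr rfl fun i' _ => by ring
  simp only [e]
  set y := T (emb n u)
  have h1 : ∑ ω, ∑ i, v ω i * coordL n ω i y ≤ ∑ ω : Om n, ‖y ⟨n, ω⟩‖ :=
    Finset.sum_le_sum fun ω _ => hv ω _
  refine h1.trans ?_
  have h2 : (∑ ω : Om n, ‖y ⟨n, ω⟩‖) ^ 2 ≤ Fintype.card (Om n) * ∑ ω : Om n, ‖y ⟨n, ω⟩‖ ^ 2 := by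
    have := sq_sum_le_card_mul_sum_sq (s := Finset.univ) (f := fun ω : Om n => ‖y ⟨n, ω⟩‖)
    rwa [Finset.card_univ] at this
  have h3 : ‖y‖ ^ 2 ≤ ‖T‖ ^ 2 * Fintype.card (Om n) := by
    calc ‖y‖ ^ 2 ≤ (‖T‖ * ‖emb n u‖) ^ 2 := by gcongr; exact T.le_opNorm _
      _ = ‖T‖ ^ 2 * ‖emb n u‖ ^ 2 := by ring
      _ ≤ _ := by gcongr; exact emb_norm n u hu
  apply le_of_pow_le_pow_left₀ (n := 2) (by norm_num) (by positivity)
  calc (∑ ω : Om n, ‖y ⟨n, ω⟩‖) ^ 2 ≤ Fintype.card (Om n) * ∑ ω : Om n, ‖y ⟨n, ω⟩‖ ^ 2 := h2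
    _ ≤ Fintype.card (Om n) * (‖T‖ ^ 2 * Fintype.card (Om n)) := by
        gcongr; exact (sum_norm_sq_le n y).trans h3
    _ = _ := by ring

noncomputable def psi (n k : ℕ) : (Y →L[ℝ] Y) →L[ℝ] ℝ :=
  ∑ ω : Om n, ∑ ω' : Om n, (ind k ω ω' / (Fintype.card (Om n) * Fintype.card (I n))) •
    ∑ i, (coordL n ω i).comp (ContinuousLinearMap.apply ℝ Y (bas n ω' i))

lemma psi_apply (n k : ℕ) (T : Y →L[ℝ] Y) : psi n k T =
    ∑ ω : Om n, ∑ ω' : Om n, ((∑ i, coordL n ω i (T (bas n ω' i))) / Fintype.card (I n) /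
      Fintype.card (Om n)) * ind k ω ω' := by
  unfold psi
  simp only [sum_apply, smul_apply,
    ContinuousLinearMap.comp_apply, ContinuousLinearMap.apply_apply, smul_eq_mul]
  refine Finset.sum_congr rfl fun ω _ => Finset.sum_congr rfl fun ω' _ => ?_
  field_simp

lemma lc_swap {n : ℕ} (w : Om n → Om n → ℝ) (c : ℕ →₀ ℝ) :
    lc (fun k => ∑ ω, ∑ ω', w ω ω' * ind k ω ω') c =
      ∑ ω, ∑ ω', w ω ω' * lc (fun k => ind k ω ω') c := by
  induction c using Finsupp.induction_linear with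
  | zero => simp
  | add f g hf hg => simp only [map_add, hf, hg, mul_add, Finset.sum_add_distrib]
  | single k x =>
    simp only [Finsupp.linearCombination_single, smul_eq_mul, Finset.mul_sum]
    exact Finset.sum_congr rfl fun ω _ => Finset.sum_congr rfl fun ω' _ => by ring

lemma psi_lc_le (n : ℕ) (c : ℕ →₀ ℝ) (hc : Rl n (fun ω ω' : Om n => lc (fun k => ind k ω ω') c))
    (T : Y →L[ℝ] Y) : lc (fun k => psi n k T) c ≤ ‖T‖ := by
  simp only [psi_apply]
  rw [lc_swap]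
  have h := hc (fun ω ω' => (∑ i, coordL n ω i (T (bas n ω' i))) / Fintype.card (I n))
    (Fintype.card (Om n) * ‖T‖) (fun u v hu hv =>
      avg_diag (fun ω i ω' i' => coordL n ω i (T (bas n ω' i'))) _ (pair_bound T n) u v hu hv)
  have hp : (0 : ℝ) < Fintype.card (Om n) := by exact_mod_cast Fintype.card_pos
  have e : ∑ ω : Om n, ∑ ω' : Om n, ((∑ i, coordL n ω i (T (bas n ω' i))) / Fintype.card (I n) /
      Fintype.card (Om n)) * lc (fun k => ind k ω ω') c =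
      (∑ ω : Om n, ∑ ω' : Om n, ((∑ i, coordL n ω i (T (bas n ω' i))) / Fintype.card (I n)) *
        lc (fun k => ind k ω ω') c) / Fintype.card (Om n) := by
    rw [Finset.sum_div]
    refine Finset.sum_congr rfl fun ω _ => ?_
    rw [Finset.sum_div]
    exact Finset.sum_congr rfl fun ω' _ => by ring
  rw [e, div_le_iff₀ hp]
  linarith

lemma psi_le (n k : ℕ) (T : Y →L[ℝ] Y) : psi n k T ≤ ‖T‖ := by
  have := psi_lc_le n (Finsupp.single k 1) (by
    simp only [Finsupp.linearCombination_single, one_smul]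
    exact Rl_pad_le (Nat.zero_le n) (Rl_base (rep k))) T
  simpa using this

lemma psi_norm (n k : ℕ) : ‖psi n k‖ ≤ 1 := by
  refine ContinuousLinearMap.opNorm_le_bound _ zero_le_one fun T => ?_
  rw [one_mul, Real.norm_eq_abs, abs_le]
  refine ⟨?_, psi_le n k T⟩
  have := psi_le n k (-T)
  rw [map_neg, norm_neg] at this
  linarith

end Pool.Agent.H366Z.Gro
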